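import Pool.Agent.W426.LE.EL

/-!
# The list edge-colouring conjecture for two circulant graphs of prime power order joined by translations

Let `p` be an odd prime, `n = p ^ m` with `m ≥ 1`, let `S` and `R` be symmetric sets of `p - 1` units
modulo `n` and `T` a nonempty set of fewer than `p` residues modulo `n`. The graph
`joinedCirculants n S R T` consists of the two circulant graphs `Cay(ℤ/n, S)` and `Cay(ℤ/n, R)` and of
all edges joining the vertex `x` of the first one with the vertex `x + t` of the second one, `t ∈ T`.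
It is regular of degree `p - 1 + |T|` and has `2 p ^ m` vertices. The list edge-colouring conjecture
holds for all these graphs, and for all their subgraphs whose edges cannot be properly coloured with
fewer than `p - 1 + |T|` colours.
-/

set_option autoImplicit false

namespace Pool.Agent.Results.MP_2f9829_co.JoinedCirculants

/-- The circulant graphs on the residues modulo `n` with the connection sets `S` (vertices `(x, false)`)
and `R` (vertices `(x, true)`), with the vertex `(x, false)` joined to `(x + t, true)` for `t ∈ T`. -/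
def joinedCirculants (n : ℕ) (S R T : Finset (ZMod n)) : SimpleGraph (ZMod n × Bool) :=
  SimpleGraph.fromRel fun v w =>
    (v.2 = false ∧ w.2 = false ∧ w.1 - v.1 ∈ S) ∨ (v.2 = true ∧ w.2 = true ∧ w.1 - v.1 ∈ R) ∨
      (v.2 = false ∧ w.2 = true ∧ w.1 - v.1 ∈ T)

lemma cast_ne_zero {p m : ℕ} [Fact p.Prime] (hm : m ≠ 0) (x : ZMod (p ^ m)) (hx : IsUnit x) :
    ZMod.castHom (dvd_pow_self p hm) (ZMod p) x ≠ 0 :=
  (hx.map (ZMod.castHom (dvd_pow_self p hm) (ZMod p))).ne_zero

/-- Let `p` be an odd prime, `m ≥ 1`, `S` and `R` symmetric sets of `p - 1` units modulo `p ^ m`, and `T`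
a nonempty set of fewer than `p` residues modulo `p ^ m`. (1) For every `k`, the edges of
`joinedCirculants (p ^ m) S R T` can be properly coloured with `k` colours if and only if they can be
properly coloured from all lists of at least `k` colours. (2) The same for every subgraph `G` whose
edges cannot be properly coloured with `p + |T| - 2` colours. -/
theorem result (p m : ℕ) (hp : p.Prime) (hp2 : p ≠ 2) (hm : m ≠ 0)
    (S R T : Finset (ZMod (p ^ m))) (hS : ∀ x ∈ S, -x ∈ S) (hR : ∀ x ∈ R, -x ∈ R)
    (hSc : S.card = p - 1) (hRc : R.card = p - 1) (hSu : ∀ x ∈ S, IsUnit x)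
    (hRu : ∀ x ∈ R, IsUnit x) (hT : T.Nonempty) (hTp : T.card < p) :
    (∀ k : ℕ, (joinedCirculants (p ^ m) S R T).lineGraph.Colorable k ↔
      ∀ L : (joinedCirculants (p ^ m) S R T).edgeSet → Finset ℕ, (∀ e, k ≤ (L e).card) →
        ∃ f : (joinedCirculants (p ^ m) S R T).edgeSet → ℕ, (∀ e, f e ∈ L e) ∧
          ∀ e e', (joinedCirculants (p ^ m) S R T).lineGraph.Adj e e' → f e ≠ f e') ∧
    (∀ (V : Type) (G : SimpleGraph V) (φ : G →g joinedCirculants (p ^ m) S R T),
      Function.Injective φ → ¬ G.lineGraph.Colorable (p + T.card - 2) →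
      ∀ k : ℕ, G.lineGraph.Colorable k ↔
        ∀ L : G.edgeSet → Finset ℕ, (∀ e, k ≤ (L e).card) →
          ∃ f : G.edgeSet → ℕ, (∀ e, f e ∈ L e) ∧
            ∀ e e', G.lineGraph.Adj e e' → f e ≠ f e') := by
  haveI : Fact p.Prime := ⟨hp⟩
  have h2 := hp.two_le
  have hSc' : S.card + 1 = p := by omega
  have hRc' : R.card + 1 = p := by omega
  have hTc := hT.card_pos
  refine ⟨fun k => Pool.Agent.W426.LE.sGB p m hp2 hm S R T hS hR hSc' hRc'
    (fun x hx => cast_ne_zero hm x (hSu x hx)) (fun x hx => cast_ne_zero hm x (hRu x hx)) hT hTp k, ?_⟩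
  intro V G φ hφ hG k
  have hE := Pool.Agent.W426.LE.EL.sGBE p m hp2 hm S R T hS hR hSc' hRc'
    (fun x hx => cast_ne_zero hm x (hSu x hx)) (fun x hx => cast_ne_zero hm x (hRu x hx)) hT hTp
  have hGE := Pool.Agent.W426.LE.EL.mono G _ φ hφ (fun u v h => φ.map_rel h) _ hE
  refine Pool.Agent.W426.LE.EL.lec G _ hGE ?_ k
  have e : p - 1 + T.card - 1 = p + T.card - 2 := by omega
  rw [e]
  exact hG

end Pool.Agent.Results.MP_2f9829_co.JoinedCirculants
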