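import Pool.Agent.TH288.LEC.Merge

/-!
# Local list edge colouring with sparse heavy edges, and the list edge-colouring conjecture

The starting result `SparseGraphs` colours the edges of a graph of maximum degree `D` and maximum
average degree at most `a`, `34 * a * (1 + log D) ≤ D`, from lists of size `D`. Here the colouring
may be prescribed on a (dense) subgraph `F`, the size of the list of an edge is compared with the
degrees of the two ends of this edge only, and only the heavy edges outside `F` have to be sparse:
an edge is light if the sum of the degrees of its ends is at most the size of its list plus one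
(it can be coloured last), and heavy otherwise.
-/

set_option autoImplicit false

open Pool.Agent.H162R2.Sparse Pool.Agent.TH288.LEC

namespace Pool.Agent.Results.MP_2f9829_co.LocalLists

/-- The edges of `G` can be properly coloured from all lists of at least `k` colours. -/
def EdgeChoosable {V : Type} (G : SimpleGraph V) (k : ℕ) : Prop :=
  ∀ L : G.edgeSet → Finset ℕ, (∀ e, k ≤ (L e).card) →
    ∃ f : G.edgeSet → ℕ, (∀ e, f e ∈ L e) ∧ ∀ e e', G.lineGraph.Adj e e' → f e ≠ f e'

/-- The list edge-colouring conjecture for the graph `G`. -/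
def ListEdge {V : Type} (G : SimpleGraph V) : Prop :=
  ∀ k : ℕ, G.lineGraph.Colorable k ↔ EdgeChoosable G k

/-- The average degree of every subgraph of `H` is at most `a`: every set `X` of vertices spans at
most `a * |X|` ordered pairs of adjacent vertices. -/
def MadLe {V : Type} (H : SimpleGraph V) (a : ℝ) : Prop :=
  ∀ X : Finset V, ({e : V × V | e.1 ∈ X ∧ e.2 ∈ X ∧ H.Adj e.1 e.2}.ncard : ℝ) ≤ a * X.card

/-- Let `G` be a finite simple graph; write `d v` for the number of neighbours of `v` in `G`, and
`d_F v`, `d_H v` for those in `F`, `H`.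

(1) Let `F ≤ G`, let every edge `e` of `G` have a list `L e`, and let `f0` be a proper colouring of
the edges of `F` from their lists. Let `H` be the graph formed by the edges `u v` of `G` outside
`F` with `d u + d v ≥ |L (u v)| + 2`, and let every subgraph of `H` have average degree at most
`a`. If for all edges `u v` of `H` the numbers `d_F u + d_F v + d_H v` and
`d_F u + d_F v + 34 * a * (1 + log (d_H v))` are at most `|L (u v)|`, then `f0` extends to a proper
colouring of the edges of `G` from the lists. (Special case: `F` is empty and every subgraph of `G`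
has average degree at most `a`; then it is enough that `|L (u v)|` is at least `d v` and at least
`34 * a * (1 + log (d v))` for both ends `v` of every edge.)

(2) Let `F ≤ G`, let the edges of `F` be colourable from all lists of size `D`, or let
`d_F u + d_F v ≤ D + 1` for all edges `u v` of `F`. Let `H` be the graph formed by the edges `u v`
of `G` outside `F` with `d u + d v ≥ D + 2`, and let every subgraph of `H` have average degree at
most `a`. If for all edges `u v` of `H` the numbers `d_F u + d_F v + d_H v` and
`d_F u + d_F v + 34 * a * (1 + log (d_H v))` are at most `D`, then the edges of `G` can be coloured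
from all lists of size `D`. (Special case: `F` is empty, `D` is the maximum degree and
`34 * a * (1 + log D) ≤ D`.)

(3) Let every vertex of `G` have at most `D` neighbours and let `W` be a set of vertices. The
conclusion of (2) also holds if `F` is the graph of the edges of `G` with both ends in `W`, `H` is
the graph of the edges `u v` of `G` with both ends outside `W` and `d u + d v ≥ D + 2`, and if,
with `dW v` for the number of neighbours of `v` in `W`,
* the edges of `F` can be coloured from all lists of size `D`, or
  `dW u + dW v ≤ D + 1` for all edges `u v` of `F`;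
* `dW u + dW w ≤ D` for all edges `u w` of `G` with `u` outside and `w` in `W`;
* every subgraph of `H` has average degree at most `a`, and for all edges `u v` of `H` the numbers
  `dW u + dW v + d_H v` and `dW u + dW v + 34 * a * (1 + log (d_H v))` are at most `D`.

In (2) and (3), if moreover some vertex of `G` has at least `D` neighbours, then the list
edge-colouring conjecture holds for `G`. -/
theorem result :
    (∀ (V : Type) [Fintype V] (G F H : SimpleGraph V) (a : ℝ), F ≤ G →
      ∀ (L : Sym2 V → Finset ℕ) (f0 : Sym2 V → ℕ), (∀ e ∈ F.edgeSet, f0 e ∈ L e) →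
        (∀ u v w, F.Adj u v → F.Adj u w → v ≠ w → f0 s(u, v) ≠ f0 s(u, w)) →
        (∀ u v, H.Adj u v ↔ G.Adj u v ∧ ¬ F.Adj u v ∧
          (L s(u, v)).card + 2 ≤ (G.neighborSet u).ncard + (G.neighborSet v).ncard) →
        MadLe H a →
        (∀ u v, H.Adj u v →
          (F.neighborSet u).ncard + (F.neighborSet v).ncard + (H.neighborSet v).ncard ≤
            (L s(u, v)).card ∧
          ((F.neighborSet u).ncard + (F.neighborSet v).ncard : ℝ) +
            34 * a * (1 + Real.log (H.neighborSet v).ncard) ≤ (L s(u, v)).card) →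
        ∃ f : Sym2 V → ℕ, (∀ e ∈ F.edgeSet, f e = f0 e) ∧ (∀ e ∈ G.edgeSet, f e ∈ L e) ∧
          ∀ u v w, G.Adj u v → G.Adj u w → v ≠ w → f s(u, v) ≠ f s(u, w)) ∧
    (∀ (V : Type) [Fintype V] (G F H : SimpleGraph V) (D : ℕ) (a : ℝ), F ≤ G →
      (EdgeChoosable F D ∨
        ∀ u v, F.Adj u v → (F.neighborSet u).ncard + (F.neighborSet v).ncard ≤ D + 1) →
      (∀ u v, H.Adj u v ↔
        G.Adj u v ∧ ¬ F.Adj u v ∧ D + 2 ≤ (G.neighborSet u).ncard + (G.neighborSet v).ncard) →
      MadLe H a →
      (∀ u v, H.Adj u v →
        (F.neighborSet u).ncard + (F.neighborSet v).ncard + (H.neighborSet v).ncard ≤ D ∧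
        ((F.neighborSet u).ncard + (F.neighborSet v).ncard : ℝ) +
          34 * a * (1 + Real.log (H.neighborSet v).ncard) ≤ D) →
      EdgeChoosable G D ∧ ((∃ v, D ≤ (G.neighborSet v).ncard) → ListEdge G)) ∧
    (∀ (V : Type) [Fintype V] (G F H : SimpleGraph V) (W : Set V) (D : ℕ) (a : ℝ),
      (∀ v, (G.neighborSet v).ncard ≤ D) →
      (∀ u v, F.Adj u v ↔ G.Adj u v ∧ u ∈ W ∧ v ∈ W) →
      (EdgeChoosable F D ∨ ∀ u v, F.Adj u v →
        (G.neighborSet u ∩ W).ncard + (G.neighborSet v ∩ W).ncard ≤ D + 1) →
      (∀ u w, G.Adj u w → u ∉ W → w ∈ W →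
        (G.neighborSet u ∩ W).ncard + (G.neighborSet w ∩ W).ncard ≤ D) →
      (∀ u v, H.Adj u v ↔ G.Adj u v ∧ u ∉ W ∧ v ∉ W ∧
        D + 2 ≤ (G.neighborSet u).ncard + (G.neighborSet v).ncard) →
      MadLe H a →
      (∀ u v, H.Adj u v →
        (G.neighborSet u ∩ W).ncard + (G.neighborSet v ∩ W).ncard +
          (H.neighborSet v).ncard ≤ D ∧
        ((G.neighborSet u ∩ W).ncard + (G.neighborSet v ∩ W).ncard : ℝ) +
          34 * a * (1 + Real.log (H.neighborSet v).ncard) ≤ D) →
      EdgeChoosable G D ∧ ((∃ v, D ≤ (G.neighborSet v).ncard) → ListEdge G)) := by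
  classical
  have hdW : ∀ (V : Type) [Fintype V] (G : SimpleGraph V) (W : Set V) (v : V),
      dW G W.toFinset v = (G.neighborSet v ∩ W).ncard := by
    intro V _ G W v
    unfold dW
    rw [← Set.ncard_coe_finset]
    congr 1
    ext w
    simp [mem_nb]
  have hfin : ∀ (V : Type) [Fintype V] (G : SimpleGraph V) (D : ℕ), EdgeChoosable G D →
      EdgeChoosable G D ∧ ((∃ v, D ≤ (G.neighborSet v).ncard) → ListEdge G) := by
    intro V _ G D h
    refine ⟨h, ?_⟩
    rintro ⟨v, hv⟩ k
    exact Pool.Agent.H162R2.LEC.listEdge_of_embed G D h G id Function.injective_id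
      (fun _ _ h => h) v hv k
  have h3 : ∀ (V : Type) [Fintype V] (G F H : SimpleGraph V) (W : Set V) (D : ℕ) (a : ℝ),
      (∀ v, (G.neighborSet v).ncard ≤ D) →
      (∀ u v, F.Adj u v ↔ G.Adj u v ∧ u ∈ W ∧ v ∈ W) →
      (EdgeChoosable F D ∨ ∀ u v, F.Adj u v →
        (G.neighborSet u ∩ W).ncard + (G.neighborSet v ∩ W).ncard ≤ D + 1) →
      (∀ u w, G.Adj u w → u ∉ W → w ∈ W →
        (G.neighborSet u ∩ W).ncard + (G.neighborSet w ∩ W).ncard ≤ D) →
      (∀ u v, H.Adj u v ↔ G.Adj u v ∧ u ∉ W ∧ v ∉ W ∧
        D + 2 ≤ (G.neighborSet u).ncard + (G.neighborSet v).ncard) →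
      MadLe H a →
      (∀ u v, H.Adj u v →
        (G.neighborSet u ∩ W).ncard + (G.neighborSet v ∩ W).ncard +
          (H.neighborSet v).ncard ≤ D ∧
        ((G.neighborSet u ∩ W).ncard + (G.neighborSet v ∩ W).ncard : ℝ) +
          34 * a * (1 + Real.log (H.neighborSet v).ncard) ≤ D) →
      EdgeChoosable G D := by
    intro V _ G F H W D a hD hF hFc hcross hH hmad h12
    have hFi : F = inner G W.toFinset := by
      ext u v
      rw [hF]
      simp [Pool.Agent.TH288.LEC.inner]
    have hFd : ∀ u, u ∈ W → dg F u = (G.neighborSet u ∩ W).ncard := by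
      intro u hu
      rw [dg_eq_ncard]
      congr 1
      ext v
      simp only [SimpleGraph.mem_neighborSet, Set.mem_inter_iff, hF]
      tauto
    have hFc' : Pool.Agent.H921R2.LEC.Choosable F D := by
      rcases hFc with h | h
      · exact h
      · apply choosable_greedy
        intro u v huv
        have h4 := (hF u v).1 huv
        rw [hFd u h4.2.1, hFd v h4.2.2]
        exact h u v huv
    apply choosable_levels G H W.toFinset D a
    · intro v
      rw [dg_eq_ncard]
      exact hD v
    · rw [← hFi]
      exact hFc'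
    · intro u w huw hu hw
      rw [hdW, hdW]
      exact hcross u w huw (by simpa using hu) (by simpa using hw)
    · intro u v
      rw [hH u v, dg_eq_ncard, dg_eq_ncard]
      simp
    · exact dens_of_ncard H a hmad
    · intro u v huv
      rw [hdW, hdW, dg_eq_ncard]
      exact (h12 u v huv).1
    · intro u v huv
      rw [hdW, hdW, dg_eq_ncard]
      exact (h12 u v huv).2
  have h2 : ∀ (V : Type) [Fintype V] (G F H : SimpleGraph V) (D : ℕ) (a : ℝ), F ≤ G →
      EdgeChoosable F D →
      (∀ u v, H.Adj u v ↔
        G.Adj u v ∧ ¬ F.Adj u v ∧ D + 2 ≤ (G.neighborSet u).ncard + (G.neighborSet v).ncard) →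
      MadLe H a →
      (∀ u v, H.Adj u v →
        (F.neighborSet u).ncard + (F.neighborSet v).ncard + (H.neighborSet v).ncard ≤ D ∧
        ((F.neighborSet u).ncard + (F.neighborSet v).ncard : ℝ) +
          34 * a * (1 + Real.log (H.neighborSet v).ncard) ≤ D) →
      EdgeChoosable G D := by
    intro V _ G F H D a hFG hF hH hmad h12
    have hsd : (F ⊔ H) \ F = H := by
      ext u v
      simp only [SimpleGraph.sdiff_adj, SimpleGraph.sup_adj]
      constructor
      · rintro ⟨h3 | h3, h4⟩
        · exact absurd h3 h4
        · exact h3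
      · intro h3
        exact ⟨Or.inr h3, ((hH u v).1 h3).2.1⟩
    have hG2 : Pool.Agent.H921R2.LEC.Choosable (F ⊔ H) D := by
      apply choosable_union (F ⊔ H) F le_sup_left D a
      · rw [hsd]
        exact dens_of_ncard H a hmad
      · exact hF
      · intro u v huv
        rw [hsd] at huv ⊢
        rw [dg_eq_ncard, dg_eq_ncard, dg_eq_ncard]
        exact (h12 u v huv).1
      · intro u v huv
        rw [hsd] at huv ⊢
        rw [dg_eq_ncard, dg_eq_ncard, dg_eq_ncard]
        exact (h12 u v huv).2
    apply choosable_light G (F ⊔ H) D _ _ hG2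
    · intro u v huv
      rcases huv with h3 | h3
      · exact hFG h3
      · exact ((hH u v).1 h3).1
    · intro u v huv hnot
      rw [SimpleGraph.sup_adj, not_or] at hnot
      rw [dg_eq_ncard, dg_eq_ncard]
      by_contra hcon
      exact hnot.2 ((hH u v).2 ⟨huv, hnot.1, by omega⟩)
  refine ⟨?_, ?_, ?_⟩
  · intro V _ G F H a hFG L f0 h0L h0 hH hmad h12
    apply extend_heavy G F H hFG a (dens_of_ncard H a hmad) L f0 _ h0 h0L
    · intro u v huv
      rw [dg_eq_ncard, dg_eq_ncard, dg_eq_ncard]
      exact (h12 u v huv).1
    · intro u v huv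
      rw [dg_eq_ncard, dg_eq_ncard, dg_eq_ncard]
      exact (h12 u v huv).2
    · intro u v
      rw [hH u v, dg_eq_ncard, dg_eq_ncard]
  · intro V _ G F H D a hFG hF hH hmad h12
    apply hfin V G D
    apply h2 V G F H D a hFG _ hH hmad h12
    rcases hF with h | h
    · exact h
    · apply choosable_greedy
      intro u v huv
      rw [dg_eq_ncard, dg_eq_ncard]
      exact h u v huv
  · intro V _ G F H W D a hD hF hFc hcross hH hmad h12
    exact hfin V G D (h3 V G F H W D a hD hF hFc hcross hH hmad h12)

end Pool.Agent.Results.MP_2f9829_co.LocalLists
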