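import Pool.Agent.TH378.LCPfaff

/-!
# The list edge colouring conjecture for covers with `p`-group monodromy

A `d`-regular multigraph with a 1-factorization is given by `d` fixed point free involutions `F i`
of its vertex set; `F i v` is the partner of the vertex `v` in the `i`-th perfect matching.
-/

set_option autoImplicit false

namespace Pool.Agent.Results.MP_2f9829_co.PGroupCovers

/-- The list edge colouring conjecture for the single graph `G`, in the form of the frozen statement
`S07911`: for every `k`, the edges of `G` can be properly coloured with `k` colours if and only if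
`G` has a proper edge colouring from every list assignment with lists of at least `k` colours. -/
def ListEdgeConjectureFor {V : Type} (G : SimpleGraph V) : Prop :=
  ∀ k : ℕ, G.lineGraph.Colorable k ↔
    ∀ L : G.edgeSet → Finset ℕ, (∀ e, k ≤ (L e).card) →
      ∃ f : G.edgeSet → ℕ, (∀ e, f e ∈ L e) ∧
        ∀ e e', G.lineGraph.Adj e e' → f e ≠ f e'

/-- The list edge colouring conjecture for all graphs isomorphic to a subgraph of `H` whose edges
cannot be properly coloured with `d - 1` colours. -/
def SubgraphsToo {V : Type} (H : SimpleGraph V) (d : ℕ) : Prop :=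
  ∀ (W : Type) (G : SimpleGraph W) (φ : W → V), Function.Injective φ →
    (∀ u v, G.Adj u v → H.Adj (φ u) (φ v)) → ¬ G.lineGraph.Colorable (d - 1) →
    ListEdgeConjectureFor G

/-- `F 0, …, F (d - 1)` are perfect matchings on the vertex set `V`: fixed point free involutions.
Such a family is the same as a `d`-regular multigraph without loops on `V` (with the edges
`{v, F i v}` labelled `i`) together with a 1-factorization. -/
def IsFactorization {d : ℕ} {V : Type} (F : Fin d → V → V) : Prop :=
  ∀ i v, F i (F i v) = v ∧ F i v ≠ v

/-- The multigraph has no parallel edges. -/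
def NoParallelEdges {d : ℕ} {V : Type} (F : Fin d → V → V) : Prop :=
  ∀ v i j, F i v = F j v → i = j

/-- The graph with the edges `{v, F i v}`. -/
def unionGraph {d : ℕ} {V : Type} (F : Fin d → V → V) : SimpleGraph V :=
  SimpleGraph.fromRel (fun u v => ∃ i, F i u = v)

open Classical in
/-- The signed number of the proper colourings of the edges of the multigraph with `d` colours. Such
a colouring is a family of permutations `σ v` of the colours, where `σ v i` is the colour of the edge
with the label `i` at `v` (so `σ (F i v) i = σ v i`); it is counted with the product of the signs of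
the `σ v`. -/
noncomputable def signedNumber {d : ℕ} {V : Type} [Fintype V] (F : Fin d → V → V) : ℤ :=
  ∑ σ ∈ Finset.univ.filter (fun σ : V → Equiv.Perm (Fin d) => ∀ v i, σ (F i v) i = σ v i),
    ∏ v, ((Equiv.Perm.sign (σ v) : ℤˣ) : ℤ)

/-- The multigraph has only one 1-factorization up to exchanging parallel edges: every family `g` of
`d` perfect matchings with the same number of edges between any two vertices `v`, `w` consists of the
perfect matchings `F i`. -/
def EssentiallyUnique {d : ℕ} {V : Type} (F : Fin d → V → V) : Prop :=
  ∀ g : Fin d → V → V, (∀ i v, g i (g i v) = v) →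
    (∀ v w, Nat.card {i // g i v = w} = Nat.card {i // F i v = w}) →
    ∃ π : Equiv.Perm (Fin d), ∀ i, g (π i) = F i

open Classical in
/-- Pfaffian orientations. `o i v = true` means that `v` is the tail of the edge with label `i` at
`v`. A perfect matching of the multigraph is given by the label `c v` of its edge at every vertex `v`.
The orientation is Pfaffian if all perfect matchings have the same sign: every permutation `π` of the
vertices that maps the edges of a perfect matching `c` to the edges of a perfect matching `c'`, tails
to tails and heads to heads, is even. -/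
def IsPfaffian {d : ℕ} {V : Type} [Fintype V] (F : Fin d → V → V) (o : Fin d → V → Bool) : Prop :=
  (∀ i v, o i (F i v) = !(o i v)) ∧
  ∀ c c' : V → Fin d, (∀ v, c (F (c v) v) = c v) → (∀ v, c' (F (c' v) v) = c' v) →
    ∀ π : Equiv.Perm V, (∀ v, π (F (c v) v) = F (c' (π v)) (π v)) →
      (∀ v, o (c' (π v)) (π v) = o (c v) v) → Equiv.Perm.sign π = 1

/-- The number of the proper colourings of the edges with `d` colours. -/
noncomputable def numColourings {d : ℕ} {V : Type} (F : Fin d → V → V) : ℕ :=
  Nat.card {σ : V → Equiv.Perm (Fin d) // ∀ v i, σ (F i v) i = σ v i}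

/-- The covering multigraph with vertex set `V × Ω` given by permutation voltages `β i v`: the edge
with label `i` at `v` lifts to the edges `{(v, ω), (F i v, β i v • ω)}`. -/
def permCover {d : ℕ} {V Q Ω : Type} [Group Q] [MulAction Q Ω] (F : Fin d → V → V)
    (β : Fin d → V → Q) : Fin d → V × Ω → V × Ω :=
  fun i x => (F i x.1, β i x.1 • x.2)

/-- Splicing: the vertices `none` of the two multigraphs are deleted, and for every label `i` the
edges with label `i` at the two deleted vertices are replaced by one edge joining their other
ends. -/
def spliceFamily {d : ℕ} {V₁ V₂ : Type} (F₁ : Fin d → Option V₁ → Option V₁)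
    (F₂ : Fin d → Option V₂ → Option V₂) : Fin d → V₁ ⊕ V₂ → V₁ ⊕ V₂ := fun i v =>
  match v with
  | Sum.inl w => match F₁ i (some w) with
    | some w' => Sum.inl w'
    | none => match F₂ i none with
      | some b => Sum.inr b
      | none => Sum.inl w
  | Sum.inr w => match F₂ i (some w) with
    | some w' => Sum.inr w'
    | none => match F₁ i none with
      | some a => Sum.inl a
      | none => Sum.inr w

/-- `m` is a perfect matching of the simple graph `H`. -/
def IsPerfectMatching {V : Type} (H : SimpleGraph V) (m : V → V) : Prop :=
  (∀ v, m (m v) = v) ∧ ∀ v, H.Adj v (m v)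

open Classical in
/-- The indicator vector of a perfect matching. -/
noncomputable def matchingVector {V : Type} (m : V → V) : V × V → ℚ :=
  fun x => if m x.1 = x.2 then 1 else 0

/-- The smallest class of finite `d`-regular multigraphs with a 1-factorization that contains
the multigraphs whose signed number of colourings is not divisible by `p`,
the Pfaffian multigraphs whose number of colourings is not divisible by `p`,
the multigraphs with an essentially unique 1-factorization, and
the multigraphs all of whose edges are edges of a simple graph with linearly independent perfect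
matchings, and is closed under isomorphisms, permutations of the labels, splicing, and coverings
whose monodromy group is a `p`-group. -/
inductive Built (p d : ℕ) : (V : Type) → (Fin d → V → V) → Prop
  | signed (V : Type) [Fintype V] (F : Fin d → V → V) (hF : IsFactorization F)
      (hN : ¬ ((p : ℤ) ∣ signedNumber F)) : Built p d V F
  | independent (V : Type) (H : SimpleGraph V) (F : Fin d → V → V) (hV : Finite V)
      (hF : IsFactorization F) (hH : ∀ i v, H.Adj v (F i v))
      (hl : LinearIndependent ℚ (fun m : {m : V → V // IsPerfectMatching H m} =>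
        matchingVector m.1)) : Built p d V F
  | unique (V : Type) (F : Fin d → V → V) (hV : Finite V) (hF : IsFactorization F)
      (hu : EssentiallyUnique F) : Built p d V F
  | pfaffian (V : Type) [Fintype V] (F : Fin d → V → V) (o : Fin d → V → Bool)
      (hF : IsFactorization F) (ho : IsPfaffian F o) (hp : ¬ p ∣ numColourings F) : Built p d V F
  | iso (V V' : Type) (e : V ≃ V') (F : Fin d → V → V) (h : Built p d V F) :
      Built p d V' (fun i v => e (F i (e.symm v)))
  | relabel (V : Type) (π : Equiv.Perm (Fin d)) (F : Fin d → V → V) (h : Built p d V F) :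
      Built p d V (fun i => F (π i))
  | splice (V₁ V₂ : Type) (F₁ : Fin d → Option V₁ → Option V₁)
      (F₂ : Fin d → Option V₂ → Option V₂) (h₁ : Built p d (Option V₁) F₁)
      (h₂ : Built p d (Option V₂) F₂) : Built p d (V₁ ⊕ V₂) (spliceFamily F₁ F₂)
  | cover (V Q Ω : Type) [Group Q] [MulAction Q Ω] (F : Fin d → V → V) (β : Fin d → V → Q)
      (hQf : Finite Q) (hΩ : Finite Ω) (hQ : IsPGroup p Q)
      (hβ : ∀ i v, β i (F i v) = (β i v)⁻¹) (h : Built p d V F) :
      Built p d (V × Ω) (permCover F β)

theorem signed_eq {d : ℕ} {V : Type} [Fintype V] (F : Fin d → V → V) :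
    signedNumber F = Pool.Agent.TH378.LC.AT F := by
  classical
  unfold signedNumber Pool.Agent.TH378.LC.AT
  refine Finset.sum_congr ?_ fun _ _ => rfl
  ext σ
  rw [Finset.mem_filter, Finset.mem_filter]
  constructor <;> exact fun h => ⟨Finset.mem_univ _, h.2⟩

open Pool.Agent.TH378.LC in
theorem built_spec (p d : ℕ) (hp : p.Prime) (hd : 1 ≤ d) (hdp : d < p) (V : Type)
    (F : Fin d → V → V) (h : Built p d V F) : Finite V ∧ IsFactorization F ∧
      ∀ _ : Fintype V, ¬ ((p : ℤ) ∣ AT F) := by
  have : Fact p.Prime := ⟨hp⟩
  induction h with
  | @signed V iV F hF hN =>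
    refine ⟨inferInstance, hF, ?_⟩
    intro j
    have e : iV = j := Subsingleton.elim _ _
    subst e
    rw [← signed_eq]
    exact hN
  | independent V H F hV hF hH hl =>
    exact ⟨hV, hF, fun _ => AT_not_dvd F (fun i w => (hF i w).1) (fun i w => (hF i w).2) hd
      (uniq_of_indep H F (fun i w => (hF i w).1) hH hl) p hp hdp⟩
  | unique V F hV hF hu =>
    exact ⟨hV, hF, fun _ => AT_not_dvd F (fun i w => (hF i w).1) (fun i w => (hF i w).2) hd hu p hp
      hdp⟩
  | @pfaffian V iV F o hF ho hpn =>
    refine ⟨inferInstance, hF, ?_⟩
    intro j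
    have e : iV = j := Subsingleton.elim _ _
    subst e
    exact pf_not_dvd F o (fun i w => (hF i w).1) (fun i w => (hF i w).2) ho p hpn
  | iso V V' e F h ih =>
    obtain ⟨h1, h2, h3⟩ := ih
    refine ⟨Finite.of_equiv V e, ?_, ?_⟩
    · intro i v
      refine ⟨?_, ?_⟩
      · show e (F i (e.symm (e (F i (e.symm v))))) = v
        rw [Equiv.symm_apply_apply, (h2 i _).1, Equiv.apply_symm_apply]
      · intro h4
        have h5 : F i (e.symm v) = e.symm v := by
          rw [Equiv.eq_symm_apply]
          exact h4
        exact (h2 i _).2 h5
    · intro _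
      have := Fintype.ofFinite V
      rw [AT_iso]
      exact h3 _
  | relabel V π F h ih =>
    obtain ⟨h1, h2, h3⟩ := ih
    refine ⟨h1, fun i v => h2 (π i) v, ?_⟩
    intro _
    let i0 : Fin d := ⟨0, by omega⟩
    rw [AT_relabel (even_of_inv (F i0) (fun v => (h2 i0 v).1) (fun v => (h2 i0 v).2))]
    exact h3 _
  | splice V₁ V₂ F₁ F₂ h₁ h₂ ih₁ ih₂ =>
    obtain ⟨h1, h2, h3⟩ := ih₁
    obtain ⟨h1', h2', h3'⟩ := ih₂
    have : Finite V₁ := Finite.of_injective some (Option.some_injective V₁)
    have : Finite V₂ := Finite.of_injective some (Option.some_injective V₂)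
    have hi1 := fun i w => (h2 i w).1
    have hn1 := fun i w => (h2 i w).2
    have hi2 := fun i w => (h2' i w).1
    have hn2 := fun i w => (h2' i w).2
    exact ⟨inferInstance, fun i v => ⟨splice_inv F₁ F₂ hi1 hn1 hi2 hn2 i v,
      splice_ne F₁ F₂ hn1 hn2 i v⟩, splice_not_dvd p hp hd F₁ F₂ hi1 hn1 hi2 hn2 h3 h3'⟩
  | cover V Q Ω F β hQf hΩ hQ hβ h ih =>
    obtain ⟨h1, h2, h3⟩ := ih
    have hi := fun i w => (h2 i w).1
    have hn := fun i w => (h2 i w).2
    exact ⟨inferInstance, fun i v => ⟨pcov_inv F β hi hβ i v, pcov_ne F β hn i v⟩,
      pcov_not_dvd p hQ F β h3⟩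

open Pool.Agent.TH378.LC Pool.Agent.W426.LE in
theorem conclude {d : ℕ} {V : Type} [Finite V] [Nonempty V] (hd : 1 ≤ d) (F : Fin d → V → V)
    (hF : IsFactorization F) (hs : NoParallelEdges F) (hAT : ∀ _ : Fintype V, AT F ≠ 0) :
    ListEdgeConjectureFor (unionGraph F) ∧ SubgraphsToo (unionGraph F) d := by
  have := Fintype.ofFinite V
  have h1 : EL.EL (fgraph F) d :=
    fam_EL F (fun i v => (hF i v).1) (fun i v => (hF i v).2) hs (hAT _)
  have h2 : ¬ (fgraph F).lineGraph.Colorable (d - 1) :=
    fam_not_colorable F (fun i v => (hF i v).1) (fun i v => (hF i v).2) hs hd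
  refine ⟨fun k => EL.lec (fgraph F) d h1 h2 k, ?_⟩
  intro W G φ hφ hG hc k
  exact EL.lec G d (EL.mono G (fgraph F) φ hφ hG d h1) hc k

/-- Let `p` be a prime and `1 ≤ d < p`. The list edge colouring conjecture holds for every simple
graph in the class `Built p d` (multigraphs with signed number of colourings prime to `p`, Pfaffian
with number of colourings prime to `p`, with an essentially unique 1-factorization, or on a simple
graph with linearly independent perfect matchings, closed under splicing and coverings with `p`-group
monodromy) and for its subgraphs of chromatic index `d`. -/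
theorem result (p d : ℕ) (hp : p.Prime) (hd : 1 ≤ d) (hdp : d < p) (V : Type) (F : Fin d → V → V)
    (hV : Nonempty V) (hB : Built p d V F) (hs : NoParallelEdges F) :
    ListEdgeConjectureFor (unionGraph F) ∧ SubgraphsToo (unionGraph F) d := by
  obtain ⟨h1, h2, h3⟩ := built_spec p d hp hd hdp V F hB
  refine conclude hd F h2 hs ?_
  intro i h0
  exact h3 i (by rw [h0]; exact dvd_zero _)

end Pool.Agent.Results.MP_2f9829_co.PGroupCovers
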