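import Mathlib
import Pool.Agent.TH559.LE.Edges

set_option autoImplicit false

/-!
# The list edge-colouring conjecture for graphs with few edges between vertices of large degree

An edge is heavy if the degrees of its ends have sum at least `D + 2`, where `D` is the maximum
degree. The conjecture holds if every component of the graph of the heavy edges has fewer than
`c(D) (D + 2)²` edges, where `c(D) ≥ 13 / 72` for all `D` and `c(D) → 1 / 4`.
-/

namespace Pool.Agent.Results.MP_2f9829_co.SparseLargeVertices

open Pool.Agent.TH559.LE

/-- There is a function `c` with `c(D) ≥ 13 / 72` for all `D` and `c(D) → 1 / 4` such that the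
following holds for every finite simple graph `G` with all degrees at most `D`. If in the graph of
the heavy edges of `G` (those edges `uv` with `deg u + deg v ≥ D + 2`) every component has fewer
than `c(D) (D + 2)²` edges, then `G` is edge-colourable from all lists of `D` colours; if moreover
`D` is the maximum degree of `G`, the list edge-colouring conjecture holds for `G`. -/
theorem result : ∃ c : ℕ → ℝ, (∀ D, 13 / 72 ≤ c D) ∧
    Filter.Tendsto c Filter.atTop (nhds (1 / 4)) ∧
    ∀ (V : Type) [Fintype V] (G : SimpleGraph V) (D : ℕ),
      (∀ v, (G.neighborSet v).ncard ≤ D) →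
      (∀ v, ((comp (heavy G D) v).edgeSet.ncard : ℝ) < c D * ((D : ℝ) + 2) ^ 2) →
      Choosable G D ∧
        ((∃ v, (G.neighborSet v).ncard = D) →
          ∀ k : ℕ, G.lineGraph.Colorable k ↔ Choosable G k) := by
  refine ⟨cst, cst_ge, cst_tendsto, ?_⟩
  intro V _ G D hD hE
  have main : Choosable G D := of_cst' V G D hD hE
  refine ⟨main, ?_⟩
  rintro ⟨v, hv⟩ k
  exact lecc G D main v hv k

end Pool.Agent.Results.MP_2f9829_co.SparseLargeVertices
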